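import Pool.Agent.L0h45.AV.Stm

/-!
# AV.RDX (helper4): reduction of the integral tuples
-/

set_option autoImplicit false
set_option linter.all false

namespace Pool.Agent.L0h4.AV

open Pool.Agent.N874.PP (Tup chA chB gq tau)
open Pool.Agent.L0h45.AV

/-! ### The moves on the parameters -/

theorem Bp_tau (u p v θ C S : ℝ) (hv : v ≠ 0) : tau u (Bp p v θ C S) = Bp (p - u) v θ C S := by
  simp only [tau, gq, Bp]
  ext <;> simp only <;> field_simp <;> ring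

theorem Bp_rf (p v θ C S : ℝ) (hv : v ≠ 0) : rf (Bp p v θ C S) = Bp (-p) v θ C (-S) := by
  simp only [rf, Bp]
  ext <;> simp only <;> field_simp <;> ring

theorem Bp_sw (p v θ C S : ℝ) (hv : v ≠ 0) :
    sw (Bp p v θ C S) = Bp (-p / (2 * (p ^ 2 + v ^ 2))) (v / (2 * (p ^ 2 + v ^ 2))) θ
      (((p ^ 2 - v ^ 2) * C - 2 * p * v * S) / (p ^ 2 + v ^ 2))
      ((2 * p * v * C + (p ^ 2 - v ^ 2) * S) / (p ^ 2 + v ^ 2)) := by
  have hn : p ^ 2 + v ^ 2 ≠ 0 := by positivity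
  simp only [sw, Bp]
  ext <;> simp only <;> field_simp <;> ring

theorem toR_tau (u : ℤ) (B : Tup ℤ) : toR (tau u B) = tau (u : ℝ) (toR B) := by
  simp only [tau, gq, toR]
  ext <;> simp only <;> push_cast <;> ring

theorem toR_rf (B : Tup ℤ) : toR (rf B) = rf (toR B) := by
  simp only [rf, toR]
  ext <;> simp only <;> push_cast <;> ring

theorem toR_sw (B : Tup ℤ) : toR (sw B) = sw (toR B) := rfl

theorem chA_toR (B : Tup ℤ) : chA (toR B) = ((chA B : ℤ) : ℝ) := by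
  simp only [chA, toR]; push_cast; ring

theorem chB_toR (B : Tup ℤ) : chB (toR B) = ((chB B : ℤ) : ℝ) := by
  simp only [chB, toR]; push_cast; ring

theorem chA_tau (u : ℤ) (B : Tup ℤ) : chA (tau u B) = chA B := by
  simp only [chA, tau, gq]; ring

theorem chB_tau (u : ℤ) (B : Tup ℤ) : chB (tau u B) = chB B := by
  simp only [chB, tau, gq]; ring

theorem chA_rf (B : Tup ℤ) : chA (rf B) = chA B := by
  simp only [chA, rf]; ring

theorem chB_rf (B : Tup ℤ) : chB (rf B) = chB B := by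
  simp only [chB, rf]; ring

theorem chA_sw (B : Tup ℤ) : chA (sw B) = chA B := by
  simp only [chA, sw]; ring

theorem chB_sw (B : Tup ℤ) : chB (sw B) = chB B := by
  simp only [chB, sw]; ring

/-! ### The zero in the upper half plane is unique -/

theorem prodz (Fr Fi Gr Gi v : ℝ) (hv : 0 < v) (e1 : Fr * Gr - v ^ 2 * (Fi * Gi) = 0) (e2 : Fr * Gi + Fi * Gr = 0) :
    (Fr = 0 ∧ Fi = 0) ∨ (Gr = 0 ∧ Gi = 0) := by
  have e3 : (Fr ^ 2 + v ^ 2 * Fi ^ 2) * (Gr ^ 2 + v ^ 2 * Gi ^ 2) = 0 := by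
    have : (Fr ^ 2 + v ^ 2 * Fi ^ 2) * (Gr ^ 2 + v ^ 2 * Gi ^ 2) =
        (Fr * Gr - v ^ 2 * (Fi * Gi)) ^ 2 + v ^ 2 * (Fr * Gi + Fi * Gr) ^ 2 := by ring
    rw [this, e1, e2]; ring
  have key : ∀ a b : ℝ, a ^ 2 + v ^ 2 * b ^ 2 = 0 → a = 0 ∧ b = 0 := by
    intro a b h
    have h1 : 0 ≤ a ^ 2 := sq_nonneg _
    have h2 : 0 ≤ v ^ 2 * b ^ 2 := by positivity
    have h3 : a ^ 2 = 0 := by linarith
    have h4 : v ^ 2 * b ^ 2 = 0 := by linarith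
    have h5 : b ^ 2 = 0 := (mul_eq_zero.1 h4).resolve_left (by positivity)
    exact ⟨pow_eq_zero_iff (two_ne_zero) |>.1 h3, pow_eq_zero_iff (two_ne_zero) |>.1 h5⟩
  rcases mul_eq_zero.1 e3 with h | h
  · exact Or.inl (key _ _ h)
  · exact Or.inr (key _ _ h)

/-- the real part of the quartic form at `p + i v` -/
noncomputable def rp (B : Tup ℝ) (p v : ℝ) : ℝ :=
  4 * B.x * (p ^ 4 - 6 * p ^ 2 * v ^ 2 + v ^ 4) - 8 * B.y * (p ^ 3 - 3 * p * v ^ 2) - 12 * B.c * (p ^ 2 - v ^ 2)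
        + 4 * B.z * p + B.w

/-- the imaginary part, divided by `v` -/
noncomputable def ip (B : Tup ℝ) (p v : ℝ) : ℝ :=
  4 * B.x * (4 * p ^ 3 - 4 * p * v ^ 2) - 8 * B.y * (3 * p ^ 2 - v ^ 2) - 12 * B.c * (2 * p) + 4 * B.z

theorem rp_Bp (p v θ C S : ℝ) (hv : v ≠ 0) : rp (Bp p v θ C S) p v = 0 := by
  simp only [rp, Bp]
  field_simp
  ring

theorem ip_Bp (p v θ C S : ℝ) (hv : v ≠ 0) : ip (Bp p v θ C S) p v = 0 := by
  simp only [ip, Bp]
  field_simp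
  ring

theorem rp_Bp' (p v p' v' θ' C' S' : ℝ) (hv : v' ≠ 0) :
    v' ^ 2 * rp (Bp p' v' θ' C' S') p v = ((p - p') ^ 2 - v ^ 2 + v' ^ 2) *
      ((3 * θ' + C') * ((p - p') ^ 2 - v ^ 2) + 2 * S' * v' * (p - p') + (3 * θ' - C') * v' ^ 2) -
      v ^ 2 * ((2 * (p - p')) * ((3 * θ' + C') * (2 * (p - p')) + 2 * S' * v')) := by
  simp only [rp, Bp]
  field_simp
  ring

theorem ip_Bp' (p v p' v' θ' C' S' : ℝ) (hv : v' ≠ 0) :
    v' ^ 2 * ip (Bp p' v' θ' C' S') p v =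
      ((p - p') ^ 2 - v ^ 2 + v' ^ 2) * ((3 * θ' + C') * (2 * (p - p')) + 2 * S' * v') +
      (2 * (p - p')) * ((3 * θ' + C') * ((p - p') ^ 2 - v ^ 2) + 2 * S' * v' * (p - p') + (3 * θ' - C') * v' ^ 2) := by
  simp only [ip, Bp]
  field_simp
  ring

theorem uniq2 (p v θ C S p' v' θ' C' S' : ℝ) (hv : 0 < v) (hv' : 0 < v')
    (hA : 0 < chA (Bp p v θ C S)) (h : Bp p v θ C S = Bp p' v' θ' C' S') : p = p' ∧ v = v' := by
  have hA' : 0 < chA (Bp p' v' θ' C' S') := h ▸ hA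
  rw [chA_Bp _ _ _ _ _ hv'.ne'] at hA'
  have e1 := rp_Bp' p v p' v' θ' C' S' hv'.ne'
  rw [← h, rp_Bp _ _ _ _ _ hv.ne', mul_zero] at e1
  have e2 := ip_Bp' p v p' v' θ' C' S' hv'.ne'
  rw [← h, ip_Bp _ _ _ _ _ hv.ne', mul_zero] at e2
  rcases prodz _ _ _ _ v hv e1.symm e2.symm with ⟨h4, h3⟩ | ⟨h4, h3⟩
  · have h5 : p - p' = 0 := by linarith
    have h6 : v ^ 2 = v' ^ 2 := by rw [h5] at h4; linarith
    exact ⟨by linarith, (pow_left_inj₀ hv.le hv'.le two_ne_zero).1 h6⟩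
  · exfalso
    have h5 : (3 * θ' + C') * (p - p') = -(S' * v') := by linarith
    have h6 : -((3 * θ' + C') ^ 2 * v ^ 2) + (9 * θ' ^ 2 - C' ^ 2 - S' ^ 2) * v' ^ 2 = 0 := by
      have h7 : (3 * θ' + C') * ((3 * θ' + C') * ((p - p') ^ 2 - v ^ 2) + 2 * S' * v' * (p - p') +
          (3 * θ' - C') * v' ^ 2) = ((3 * θ' + C') * (p - p')) ^ 2 - (3 * θ' + C') ^ 2 * v ^ 2 +
          2 * S' * v' * ((3 * θ' + C') * (p - p')) + (9 * θ' ^ 2 - C' ^ 2) * v' ^ 2 := by ring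
      rw [h4, mul_zero, h5] at h7
      linarith
    have h8 : 0 ≤ (3 * θ' + C') ^ 2 * v ^ 2 := by positivity
    have h9 : 0 < (C' ^ 2 + S' ^ 2 - 9 * θ' ^ 2) * v' ^ 2 := by
      apply mul_pos _ (by positivity)
      nlinarith [sq_nonneg θ']
    linarith

theorem uniq (p v θ C S p' v' θ' C' S' : ℝ) (hv : 0 < v) (hv' : 0 < v')
    (hA : 0 < chA (Bp p v θ C S)) (h : Bp p v θ C S = Bp p' v' θ' C' S') : v = v' :=
  (uniq2 p v θ C S p' v' θ' C' S' hv hv' hA h).2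

/-- the statement UNI -/
theorem t_UNI : S_UNI := fun p v θ C S p' v' θ' C' S' hv hv' hA h => uniq2 p v θ C S p' v' θ' C' S' hv hv' hA h

/-! ### Bounds -/

theorem bdd (a b V : ℝ) (ha : 0 < a) (hV : 0 < V) : ∃ N : ℝ, ∀ p v θ C S : ℝ, |p| ≤ 1 / 2 → V ≤ v →
    chA (Bp p v θ C S) = a → chB (Bp p v θ C S) = b → 1 ≤ |(Bp p v θ C S).x| →
    |(Bp p v θ C S).x| ≤ N ∧ |(Bp p v θ C S).y| ≤ N ∧ |(Bp p v θ C S).c| ≤ N ∧ |(Bp p v θ C S).z| ≤ N ∧
      |(Bp p v θ C S).w| ≤ N := by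
  -- the bound for `θ`
  set K : ℝ := 1 + |b| with hK
  have hK1 : 1 ≤ K := by have := abs_nonneg b; linarith
  set L : ℝ := 4 * a + 12 * K ^ 2 + 1 with hL
  have hLK : K ≤ L := by nlinarith
  set M : ℝ := L + L + 1 with hM
  set Q : Set (ℝ × ℝ × ℝ × ℝ × ℝ) := Set.Icc (-1, V, -L, -L, -L) (1, M, L, L, L) with hQ
  have hQc : IsCompact Q := isCompact_Icc
  have hQv : ∀ q ∈ Q, q.2.1 ≠ 0 := by
    intro q hq
    have : V ≤ q.2.1 := hq.1.2.1
    exact (hV.trans_le this).ne'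
  have c1 : ContinuousOn (fun q : ℝ × ℝ × ℝ × ℝ × ℝ => (Bp q.1 q.2.1 q.2.2.1 q.2.2.2.1 q.2.2.2.2).x) Q := by
    simp only [Bp]
    refine ContinuousOn.div (by fun_prop) (by fun_prop) ?_
    intro q hq
    have := hQv q hq
    positivity
  have c2 : ContinuousOn (fun q : ℝ × ℝ × ℝ × ℝ × ℝ => (Bp q.1 q.2.1 q.2.2.1 q.2.2.2.1 q.2.2.2.2).y) Q := by
    simp only [Bp]
    refine ContinuousOn.div (by fun_prop) (by fun_prop) ?_
    intro q hq
    have := hQv q hq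
    positivity
  have c3 : ContinuousOn (fun q : ℝ × ℝ × ℝ × ℝ × ℝ => (Bp q.1 q.2.1 q.2.2.1 q.2.2.2.1 q.2.2.2.2).c) Q := by
    simp only [Bp]
    refine ContinuousOn.div (by fun_prop) (by fun_prop) ?_
    intro q hq
    have := hQv q hq
    positivity
  have c4 : ContinuousOn (fun q : ℝ × ℝ × ℝ × ℝ × ℝ => (Bp q.1 q.2.1 q.2.2.1 q.2.2.2.1 q.2.2.2.2).z) Q := by
    simp only [Bp]
    refine ContinuousOn.div (by fun_prop) (by fun_prop) ?_
    intro q hq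
    have := hQv q hq
    positivity
  have c5 : ContinuousOn (fun q : ℝ × ℝ × ℝ × ℝ × ℝ => (Bp q.1 q.2.1 q.2.2.1 q.2.2.2.1 q.2.2.2.2).w) Q := by
    simp only [Bp]
    refine ContinuousOn.div (by fun_prop) (by fun_prop) ?_
    intro q hq
    have := hQv q hq
    positivity
  obtain ⟨N1, h1⟩ := hQc.exists_bound_of_continuousOn c1
  obtain ⟨N2, h2⟩ := hQc.exists_bound_of_continuousOn c2
  obtain ⟨N3, h3⟩ := hQc.exists_bound_of_continuousOn c3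
  obtain ⟨N4, h4⟩ := hQc.exists_bound_of_continuousOn c4
  obtain ⟨N5, h5⟩ := hQc.exists_bound_of_continuousOn c5
  refine ⟨max N1 (max N2 (max N3 (max N4 N5))), ?_⟩
  intro p v θ C S hp hv hA hB hx
  have hv0 : 0 < v := hV.trans_le hv
  rw [chA_Bp _ _ _ _ _ hv0.ne'] at hA
  rw [chB_Bp _ _ _ _ _ hv0.ne', hA] at hB
  have t1 : |θ| * (θ ^ 2 + a) = |b| := by
    rw [← hB]
    have : -θ ^ 3 - a * θ = -(θ * (θ ^ 2 + a)) := by ring
    rw [this, abs_neg, abs_mul, abs_of_pos (by positivity : 0 < θ ^ 2 + a)]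
  have t2 : |θ| ≤ K := by
    by_contra hc
    push Not at hc
    have hq : θ ^ 2 = |θ| ^ 2 := (sq_abs θ).symm
    have hb := abs_nonneg b
    nlinarith [abs_nonneg θ]
  have t3 : C ^ 2 + S ^ 2 = 4 * a + 12 * θ ^ 2 := by linarith
  have t4 : θ ^ 2 ≤ K ^ 2 := by rw [← sq_abs θ]; exact pow_le_pow_left₀ (abs_nonneg θ) t2 2
  have t5 : C ^ 2 + S ^ 2 ≤ L := by linarith
  have hL1 : 1 ≤ L := by linarith
  have t6 : |C| ≤ L := by
    rw [← sq_le_sq₀ (abs_nonneg C) (by linarith), sq_abs]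
    nlinarith [sq_nonneg S]
  have t7 : |S| ≤ L := by
    rw [← sq_le_sq₀ (abs_nonneg S) (by linarith), sq_abs]
    nlinarith [sq_nonneg C]
  have t8 : |θ| ≤ L := t2.trans hLK
  have t9 : v ≤ M := by
    have h6 : (Bp p v θ C S).x = (3 * θ + C) / (4 * v ^ 2) := rfl
    rw [h6, abs_div, abs_of_pos (by positivity : 0 < 4 * v ^ 2), le_div_iff₀ (by positivity)] at hx
    have h7 : |3 * θ + C| ≤ 4 * L := by
      refine (abs_add_le _ _).trans ?_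
      rw [abs_mul, abs_of_pos (by norm_num : (0 : ℝ) < 3)]
      linarith
    by_contra hc
    push Not at hc
    nlinarith
  have hmem : (p, v, θ, C, S) ∈ Q := by
    have a1 := abs_le.1 hp
    have a2 := abs_le.1 t8
    have a3 := abs_le.1 t6
    have a4 := abs_le.1 t7
    refine ⟨⟨?_, hv, a2.1, a3.1, a4.1⟩, ⟨?_, t9, a2.2, a3.2, a4.2⟩⟩
    · show (-1 : ℝ) ≤ p
      linarith [a1.1]
    · show p ≤ 1
      linarith [a1.2]
  have b1 := h1 _ hmem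
  have b2 := h2 _ hmem
  have b3 := h3 _ hmem
  have b4 := h4 _ hmem
  have b5 := h5 _ hmem
  simp only [Real.norm_eq_abs] at b1 b2 b3 b4 b5
  refine ⟨b1.trans (le_max_left _ _), b2.trans ?_, b3.trans ?_, b4.trans ?_, b5.trans ?_⟩
  · exact (le_max_left _ _).trans (le_max_right _ _)
  · exact ((le_max_left _ _).trans (le_max_right _ _)).trans (le_max_right _ _)
  · exact (((le_max_left _ _).trans (le_max_right _ _)).trans (le_max_right _ _)).trans (le_max_right _ _)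
  · exact (((le_max_right _ _).trans (le_max_right _ _)).trans (le_max_right _ _)).trans (le_max_right _ _)

/-! ### Reduction of the real part -/

theorem shift (P : Tup ℤ → Prop) (hP : ∀ B, P B → P (tau 1 B) ∧ P (tau (-1) B) ∧ P (rf B) ∧ P (sw B))
    (k : ℕ) : ∀ (B : Tup ℤ) (p v θ C S : ℝ), 0 < v → P B → toR B = Bp p v θ C S → |p| ≤ k + 1 / 2 →
    ∃ (B' : Tup ℤ) (p' : ℝ), P B' ∧ chA B' = chA B ∧ chB B' = chB B ∧ |p'| ≤ 1 / 2 ∧ toR B' = Bp p' v θ C S := by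
  induction k with
  | zero =>
    intro B p v θ C S hv hB h hp
    exact ⟨B, p, hB, rfl, rfl, by simpa using hp, h⟩
  | succ k ih =>
    intro B p v θ C S hv hB h hp
    push_cast at hp
    have hp' := abs_le.1 hp
    rcases le_total 0 p with h0 | h0
    · by_cases h1 : p ≤ 1 / 2
      · exact ⟨B, p, hB, rfl, rfl, abs_le.2 ⟨by linarith, h1⟩, h⟩
      · push Not at h1
        have h2 : toR (tau 1 B) = Bp (p - 1) v θ C S := by
          rw [toR_tau, h]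
          have := Bp_tau 1 p v θ C S hv.ne'
          simpa using this
        have hk : (0 : ℝ) ≤ k := Nat.cast_nonneg k
        obtain ⟨B', p', g1, g2, g3, g4, g5⟩ := ih (tau 1 B) (p - 1) v θ C S hv (hP B hB).1 h2
          (abs_le.2 ⟨by linarith, by linarith [hp'.2]⟩)
        exact ⟨B', p', g1, g2.trans (chA_tau 1 B), g3.trans (chB_tau 1 B), g4, g5⟩
    · by_cases h1 : -(1 / 2) ≤ p
      · exact ⟨B, p, hB, rfl, rfl, abs_le.2 ⟨h1, by linarith⟩, h⟩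
      · push Not at h1
        have h2 : toR (tau (-1) B) = Bp (p + 1) v θ C S := by
          rw [toR_tau, h]
          have := Bp_tau (-1) p v θ C S hv.ne'
          simpa using this
        have hk : (0 : ℝ) ≤ k := Nat.cast_nonneg k
        obtain ⟨B', p', g1, g2, g3, g4, g5⟩ := ih (tau (-1) B) (p + 1) v θ C S hv (hP B hB).2.1 h2
          (abs_le.2 ⟨by linarith [hp'.1], by linarith⟩)
        exact ⟨B', p', g1, g2.trans (chA_tau (-1) B), g3.trans (chB_tau (-1) B), g4, g5⟩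

/-! ### The reduction -/

theorem t_RDX : S_PAR → S_BDS → S_RDX := by
  intro hPAR _ P hP hP0 B₀ hB₀
  obtain ⟨hx₀, hA₀⟩ := hP0 B₀ hB₀
  have hPAR' : ∀ B : Tup ℤ, P B → ∃ p v θ C S : ℝ, 0 < v ∧ toR B = Bp p v θ C S := by
    intro B hB
    obtain ⟨hx, hA⟩ := hP0 B hB
    refine hPAR (toR B) ?_ ?_
    · simpa [toR] using hx
    · rw [chA_toR]; exact_mod_cast hA
  -- start
  obtain ⟨p₀, v₀, θ₀, C₀, S₀, hv₀, h₀⟩ := hPAR' B₀ hB₀
  obtain ⟨k₀, hk₀⟩ := exists_nat_ge |p₀|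
  obtain ⟨B₁, p₁, hB₁, hA₁, hC₁, hp₁, h₁⟩ := shift P hP k₀ B₀ p₀ v₀ θ₀ C₀ S₀ hv₀ hB₀ h₀ (by linarith)
  set W : Set (Tup ℤ) := {B | P B ∧ chA B = chA B₀ ∧ chB B = chB B₀ ∧ ∃ p v θ C S : ℝ, |p| ≤ 1 / 2 ∧ v₀ ≤ v ∧
    toR B = Bp p v θ C S} with hW
  have hne : W.Nonempty := ⟨B₁, hB₁, hA₁, hC₁, p₁, v₀, θ₀, C₀, S₀, hp₁, le_refl _, h₁⟩
  -- `W` is finite
  obtain ⟨N, hN⟩ := bdd ((chA B₀ : ℤ) : ℝ) ((chB B₀ : ℤ) : ℝ) v₀ (by exact_mod_cast hA₀) hv₀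
  obtain ⟨n, hn⟩ := exists_nat_ge N
  have hfin : W.Finite := by
    have hI : (Set.Icc (-(n : ℤ)) n).Finite := Set.finite_Icc _ _
    refine ((hI.prod (hI.prod (hI.prod (hI.prod hI)))).image
      (fun q : ℤ × ℤ × ℤ × ℤ × ℤ => (⟨q.1, q.2.1, q.2.2.1, q.2.2.2.1, q.2.2.2.2⟩ : Tup ℤ))).subset ?_
    rintro B ⟨hB, hBA, hBB, p, v, θ, C, S, hp, hv, h⟩
    have hx := (hP0 B hB).1
    have hb := hN p v θ C S hp hv (by rw [← h, chA_toR, hBA]) (by rw [← h, chB_toR, hBB]) (by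
      rw [← h]
      show (1 : ℝ) ≤ |((B.x : ℤ) : ℝ)|
      rw [← Int.cast_abs]
      exact_mod_cast Int.one_le_abs hx)
    rw [← h] at hb
    have conv : ∀ m : ℤ, |(m : ℝ)| ≤ N → m ∈ Set.Icc (-(n : ℤ)) n := by
      intro m hm
      have h1 : |m| ≤ (n : ℤ) := by
        have : ((|m| : ℤ) : ℝ) ≤ n := by rw [Int.cast_abs]; exact hm.trans hn
        exact_mod_cast this
      exact abs_le.1 h1
    exact ⟨(B.x, B.y, B.c, B.z, B.w), ⟨conv _ hb.1, conv _ hb.2.1, conv _ hb.2.2.1, conv _ hb.2.2.2.1,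
      conv _ hb.2.2.2.2⟩, rfl⟩
  -- the height
  have hch : ∀ B : Tup ℤ, ∃ v : ℝ, P B → 0 < v ∧ ∃ p θ C S : ℝ, toR B = Bp p v θ C S := by
    intro B
    by_cases hB : P B
    · obtain ⟨p, v, θ, C, S, hv, h⟩ := hPAR' B hB
      exact ⟨v, fun _ => ⟨hv, p, θ, C, S, h⟩⟩
    · exact ⟨0, fun h => absurd h hB⟩
  choose f hf using hch
  have hfu : ∀ (B : Tup ℤ) (p v θ C S : ℝ), P B → 0 < v → toR B = Bp p v θ C S → f B = v := by
    intro B p v θ C S hB hv h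
    obtain ⟨hfB, p', θ', C', S', h'⟩ := hf B hB
    refine uniq p' (f B) θ' C' S' p v θ C S hfB hv ?_ (h'.symm.trans h)
    rw [← h', chA_toR]
    exact_mod_cast (hP0 B hB).2
  obtain ⟨B, hBW, hmax⟩ := Set.exists_max_image W f hfin hne
  obtain ⟨hB, hBA, hBB, p, v, θ, C, S, hp, hv, h⟩ := hBW
  have hvp : 0 < v := hv₀.trans_le hv
  have hfB : f B = v := hfu B p v θ C S hB hvp h
  have hn2 : 1 / 2 ≤ p ^ 2 + v ^ 2 := by
    by_contra hc
    push Not at hc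
    have hnp : 0 < p ^ 2 + v ^ 2 := by positivity
    have h2 : toR (sw B) = Bp (-p / (2 * (p ^ 2 + v ^ 2))) (v / (2 * (p ^ 2 + v ^ 2))) θ
      (((p ^ 2 - v ^ 2) * C - 2 * p * v * S) / (p ^ 2 + v ^ 2))
      ((2 * p * v * C + (p ^ 2 - v ^ 2) * S) / (p ^ 2 + v ^ 2)) := by
      rw [toR_sw, h, Bp_sw _ _ _ _ _ hvp.ne']
    have hv' : v < v / (2 * (p ^ 2 + v ^ 2)) := by
      rw [lt_div_iff₀ (by positivity)]
      nlinarith
    obtain ⟨k, hk⟩ := exists_nat_ge |-p / (2 * (p ^ 2 + v ^ 2))|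
    obtain ⟨B', p', hB', hA', hC', hp', h'⟩ := shift P hP k (sw B) _ _ _ _ _ (by positivity) (hP B hB).2.2.2 h2
      (by linarith)
    have hf' : f B' = v / (2 * (p ^ 2 + v ^ 2)) := hfu B' _ _ _ _ _ hB' (by positivity) h'
    have hmem : B' ∈ W := ⟨hB', by rw [hA', chA_sw, hBA], by rw [hC', chB_sw, hBB], p', _, _, _, _, hp',
      hv.trans hv'.le, h'⟩
    have := hmax B' hmem
    rw [hf', hfB] at this
    linarith
  rcases le_total 0 p with h0 | h0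
  · exact ⟨B, hB, v, p, θ, C, S, ⟨h0, (abs_le.1 hp).2, hvp, hn2⟩, h⟩
  · refine ⟨rf B, (hP B hB).2.2.1, v, -p, θ, C, -S, ⟨by linarith, by linarith [(abs_le.1 hp).1], hvp, ?_⟩, ?_⟩
    · rw [neg_sq]; exact hn2
    · rw [toR_rf, h, Bp_rf _ _ _ _ _ hvp.ne']

end Pool.Agent.L0h4.AV
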